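import Pool.Agent.W528.HJ.Stm
import Pool.Agent.W816.HI.AT

set_option autoImplicit false

/-! Project HJ: arithmetic with three moduli and three families of exponents, degree `D`. -/

namespace Pool.Agent.W110.HJ.AW

open Finset
open Pool.Agent.W816.HI.AT (single coprime_of_modEq divisor_mod)

theorem fin_ineq (n e r D P Q R S T U g x y : ℕ) (hn : 0 < n) (he : 0 < e) (hr : 0 < r)
    (h1 : P * g ≤ n) (h2 : Q * x ≤ e) (h3 : R * y ≤ r)
    (h : D * (Q * R * S + P * R * T + P * Q * U) < P * Q * R) :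
    D * (e * r * (g * S) + n * r * (x * T) + n * e * (y * U)) < n * e * r := by
  have A1 : Q * R * e * r * S * (P * g) ≤ Q * R * e * r * S * n := Nat.mul_le_mul_left _ h1
  have A2 : P * R * n * r * T * (Q * x) ≤ P * R * n * r * T * e := Nat.mul_le_mul_left _ h2
  have A3 : P * Q * n * e * U * (R * y) ≤ P * Q * n * e * U * r := Nat.mul_le_mul_left _ h3
  refine Nat.lt_of_mul_lt_mul_left (a := P * Q * R) ?_
  calc P * Q * R * (D * (e * r * (g * S) + n * r * (x * T) + n * e * (y * U)))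
      = D * (Q * R * e * r * S * (P * g) + P * R * n * r * T * (Q * x)
          + P * Q * n * e * U * (R * y)) := by
        ring
    _ ≤ D * (Q * R * e * r * S * n + P * R * n * r * T * e + P * Q * n * e * U * r) :=
        Nat.mul_le_mul_left D (Nat.add_le_add (Nat.add_le_add A1 A2) A3)
    _ = n * e * r * (D * (Q * R * S + P * R * T + P * Q * U)) := by ring
    _ < n * e * r * (P * Q * R) := Nat.mul_lt_mul_of_pos_left h
        (Nat.mul_pos (Nat.mul_pos hn he) hr)
    _ = P * Q * R * (n * e * r) := by ring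

/-- the sum of the residues of the multiples -/
theorem sum_le {m : ℕ} (N K x : ℕ) (a : Fin m → ℕ) :
    ∑ i, K * ((x * a i) % N) ≤ K * ((x % N) * ∑ i, a i) := by
  rw [← Finset.mul_sum]
  refine Nat.mul_le_mul_left _ ?_
  rw [Finset.mul_sum]
  refine Finset.sum_le_sum (fun i _ => ?_)
  have h : (x * a i) % N = (x % N * a i) % N := by
    rw [Nat.mod_mul_mod]
  rw [h]
  exact Nat.mod_le _ _

theorem main : Pool.Agent.W528.HJ.AW := by
  intro n e r c F D P Q R hn2 he hr hen hrn her hP hQ hR hc hcN hF m m₁ m₂ a d b hmain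
    j s₁ s₂ hj hjn hs₁ hs₂
  have hn : 0 < n := by omega
  obtain ⟨u₀, g, hu₀, hg, hu₀j⟩ := single n j hn
  obtain ⟨u₁, d₁, hu₁, hd₁, hu₁s⟩ := single e s₁ he
  obtain ⟨u₂, d₂, hu₂, hd₂, hu₂s⟩ := single r s₂ hr
  have hne : n.Coprime e := hen.symm
  obtain ⟨v, hv1, hv2⟩ := Nat.chineseRemainder hne u₀ u₁
  have hner : (n * e).Coprime r := Nat.Coprime.mul_left hrn.symm her
  obtain ⟨j', hj1, hj2⟩ := Nat.chineseRemainder hner v u₂
  have hjn' : j' ≡ u₀ [MOD n] := (hj1.of_mul_right e).trans hv1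
  have hje' : j' ≡ u₁ [MOD e] := (hj1.of_mul_left n).trans hv2
  have hcN1 : c ≡ 1 [MOD n * e * r] := ((Nat.modEq_iff_dvd' hc.one_lt.le).2 hcN).symm
  have hcb : ∀ b : ℕ, c ^ b ≡ 1 [MOD n * e * r] := by
    intro b
    have h := hcN1.pow b
    rwa [one_pow] at h
  have hcn : ∀ b : ℕ, c ^ b ≡ 1 [MOD n] := fun b => ((hcb b).of_mul_right r).of_mul_right e
  have hce : ∀ b : ℕ, c ^ b ≡ 1 [MOD e] := fun b => ((hcb b).of_mul_right r).of_mul_left n
  have hcr : ∀ b : ℕ, c ^ b ≡ 1 [MOD r] := fun b => (hcb b).of_mul_left (n * e)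
  have hPg : P * (g % n) ≤ n := (divisor_mod n g P hn hg hP).1
  refine ⟨j', ?_, ?_⟩
  · exact Nat.Coprime.mul_right (Nat.Coprime.mul_right (coprime_of_modEq hjn' hu₀)
      (coprime_of_modEq hje' hu₁)) (coprime_of_modEq hj2 hu₂)
  · have t0 : ∀ i k, (j' * (e * r * (j * a i % n)) * c ^ k) % (n * e * r) =
        e * r * ((g * a i) % n) := by
      intro i k
      have h1 : j' * (e * r * (j * a i % n)) * c ^ k = (e * r) * (j' * (j * a i % n) * c ^ k) := by
        ring
      have h2 : n * e * r = (e * r) * n := by ring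
      rw [h1, h2, Nat.mul_mod_mul_left]
      congr 1
      have h3 : j' * (j * a i % n) * c ^ k ≡ g * a i [MOD n] := by
        calc j' * (j * a i % n) * c ^ k ≡ u₀ * (j * a i) * 1 [MOD n] :=
              (hjn'.mul (Nat.mod_modEq _ _)).mul (hcn k)
          _ = (u₀ * j) * a i := by ring
          _ ≡ g * a i [MOD n] := hu₀j.mul_right _
      exact h3
    have t1 : ∀ i k, (j' * (n * r * (s₁ * d i % e)) * c ^ k) % (n * e * r) =
        n * r * ((d₁ * d i) % e) := by
      intro i k
      have h1 : j' * (n * r * (s₁ * d i % e)) * c ^ k = (n * r) * (j' * (s₁ * d i % e) * c ^ k) := by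
        ring
      have h2 : n * e * r = (n * r) * e := by ring
      rw [h1, h2, Nat.mul_mod_mul_left]
      congr 1
      have h3 : j' * (s₁ * d i % e) * c ^ k ≡ d₁ * d i [MOD e] := by
        calc j' * (s₁ * d i % e) * c ^ k ≡ u₁ * (s₁ * d i) * 1 [MOD e] :=
              (hje'.mul (Nat.mod_modEq _ _)).mul (hce k)
          _ = (u₁ * s₁) * d i := by ring
          _ ≡ d₁ * d i [MOD e] := hu₁s.mul_right _
      exact h3
    have t2 : ∀ l k, (j' * (n * e * (s₂ * b l % r)) * c ^ k) % (n * e * r) =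
        n * e * ((d₂ * b l) % r) := by
      intro l k
      have h1 : j' * (n * e * (s₂ * b l % r)) * c ^ k = (n * e) * (j' * (s₂ * b l % r) * c ^ k) := by
        ring
      rw [h1, Nat.mul_mod_mul_left]
      congr 1
      have h3 : j' * (s₂ * b l % r) * c ^ k ≡ d₂ * b l [MOD r] := by
        calc j' * (s₂ * b l % r) * c ^ k ≡ u₂ * (s₂ * b l) * 1 [MOD r] :=
              (hj2.mul (Nat.mod_modEq _ _)).mul (hcr k)
          _ = (u₂ * s₂) * b l := by ring
          _ ≡ d₂ * b l [MOD r] := hu₂s.mul_right _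
      exact h3
    simp only [t0, t1, t2, Finset.sum_const, Finset.card_range, smul_eq_mul]
    have e0 : D * (∑ i, F * (e * r * (g * a i % n)) + ∑ i, F * (n * r * (d₁ * d i % e))
        + ∑ l, F * (n * e * (d₂ * b l % r))) =
        F * (D * (∑ i, e * r * (g * a i % n) + ∑ i, n * r * (d₁ * d i % e)
          + ∑ l, n * e * (d₂ * b l % r))) := by
      rw [← Finset.mul_sum (f := fun i => e * r * (g * a i % n)),
        ← Finset.mul_sum (f := fun i => n * r * (d₁ * d i % e)),
        ← Finset.mul_sum (f := fun l => n * e * (d₂ * b l % r))]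
      ring
    rw [e0]
    apply Nat.mul_lt_mul_of_pos_left _ hF
    have e1 := sum_le n (e * r) g a
    have e2 := sum_le e (n * r) d₁ d
    have e3 := sum_le r (n * e) d₂ b
    exact lt_of_le_of_lt (Nat.mul_le_mul_left D (Nat.add_le_add (Nat.add_le_add e1 e2) e3))
      (fin_ineq n e r D P Q R (∑ i, a i) (∑ i, d i) (∑ l, b l) (g % n) (d₁ % e) (d₂ % r)
        hn he hr hPg (divisor_mod e d₁ Q he hd₁ hQ).1 (divisor_mod r d₂ R hr hd₂ hR).1 hmain)

end Pool.Agent.W110.HJ.AW
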